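import Pool.Agent.R852.MX.Top

set_option autoImplicit false

/-! # The monodromy conjecture for products of powers of forms over products of determinantal ideals

Let `x` be the generic matrix of one of the three spaces `S` of matrices: all `m × n` matrices, the
symmetric `n × n` matrices, the skew symmetric `n × n` matrices (`MSpace`). Let `p t`, `t < T`, be sizes
of minors (of Pfaffians of size `2 (p t)` in the skew symmetric case), `p t < min (m, n)`, `p t < n`, or
`2 (p t) + 1 < n` (`Small`), which are distributed over `B` blocks: `t` belongs to the block `β t`. For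
`b < B` let

  `F_b = ∑_J y_{b,J} ∏_{β t = b} M_{J t}(x)`,

where `J` runs over the choices of one minor (Pfaffian) `M_{J t}` of size `p t` for each `t` in the block
`b`, and the `y_{b,J}` are further variables. So `F_b` is the form over the product of the ideals of the
minors of the sizes `p t`, `β t = b`. Let `F = ∏ b, F_b ^ a b`, `a b ≥ 1` (`mixForm`, with integral coefficients).

The topological zeta function is defined as by Denef and Loeser, from the motivic zeta function
`Z_mot(T) = ∑_d [X_d] 𝕃 ^ (-n d) T ^ d` in `𝓜[[T]]`, `X_d` the `d`-jets on which `F` has the order `d`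
(`zetaM F Set.univ {c | c ≠ 0}`), `𝓜` the Grothendieck ring of complex varieties, localised at `𝕃`:
`Z_top(s) = χ(Z_mot(𝕃 ^ (-s)))` for `s = 1, 2, 3, …`. For this, let `E` be a homomorphism from `𝓜` to a
domain `R` with `E(𝕃) ≠ 1`, such as the Hodge-Deligne polynomial `E(u, v)`, and `ε` a homomorphism from
`R` to `ℂ` with `ε(E(𝕃)) = 1`, such as `u, v ↦ 1`, so that `ε ∘ E` is the Euler characteristic `χ`
(`IsTopZeta`).

No resolution is used. The jets on which the products of minors have given orders are divided
according to the orders of the ideals of the minors (`SSM_eq`, `gfM_eq`), for which there is a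
recursion over the Schur complements, uniformly in the exponents; so the motivic zeta function is in
the ring generated by `T` and the `(𝕃 - 1) / (1 - 𝕃 ^ (-ν) T ^ N)`, where the pairs `(-ν, N)` are the
`(-ν_d, N_d)` and `(-1, a b)`, `ν_d` the codimension of the matrices of rank `≤ d` (`≤ 2 d`),
`N_d = ∑ t, a (β t) max (p t - d, 0)` (`mixPairs`). The roots: a functional equation of `F` gives one
of the product of the ideals (`locEq_of_powProd`), and the divisor over the matrices of rank `≤ d` is
a Rees divisor of this product (`mix_data`). -/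

namespace Pool.Agent.Results.MP_a2a574_ag.MixedDeterminantal

open MvPolynomial Pool.Agent.H628R4.TP Pool.Agent.TH192.DT Pool.Agent.TH192.MT
  Pool.Agent.TH192.MU Pool.Agent.W428.MOT Pool.Agent.R852.MX

/-- **The topological zeta function of `F = ∏ b, F_b ^ a b`**, the `F_b` the forms
over products of ideals of minors (Pfaffians) of a generic, symmetric or skew symmetric matrix.
There is exactly one rational function `Z` with `Z(s) = ε(E(Z_mot(𝕃 ^ (-s))))` for
`s = 1, 2, 3, …`; each of its poles `s₀` is one of the `-ν_d / N_d` and `-1 / a b` and is a root of every `b` with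
`b(s) F ^ s = P(s) F ^ (s + 1)`, in particular of the Bernstein-Sato polynomial of `F`. By the theorem of Malgrange and Kashiwara, `exp(2 π i s₀)` is then an
eigenvalue of the monodromy of `F` at some point. -/
theorem result (S : MSpace) (T B : ℕ) (p : Fin T → ℕ) (β : Fin T → Fin B) (a : Fin B → ℕ)
    (hp : ∀ t, S.Small (p t)) (ha : ∀ b, 0 < a b)
    (R : Type) [CommRing R] [IsDomain R] (E : MK ℂ →+* R) (ε : R →+* ℂ)
    (hε : ε (E ((Lu ℂ : (MK ℂ)ˣ) : MK ℂ)) = 1) (hE : E ((Lu ℂ : (MK ℂ)ˣ) : MK ℂ) ≠ 1) :
    ∃ Z : RatFunc ℂ,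
      IsTopZeta E ε (zetaM (map (Int.castRingHom ℂ) (mixForm S p β a)) Set.univ {c | c ≠ 0}) Z ∧
      (∀ Z', IsTopZeta E ε
        (zetaM (map (Int.castRingHom ℂ) (mixForm S p β a)) Set.univ {c | c ≠ 0}) Z' → Z' = Z) ∧
      ∀ s₀ : ℂ, Z.denom.eval s₀ = 0 →
        (∃ q ∈ mixPairs S p β a, s₀ = (q.1 : ℂ) / q.2) ∧
        ∀ b : Polynomial ℂ, IsBFunction (map (Int.castRingHom ℂ) (mixForm S p β a)) b →
          b.eval s₀ = 0 := by
  obtain ⟨Z, h1, h2, h3⟩ := mix_top S p β a hp ha Constr.univ E ε hε hE
  refine ⟨Z, h1, h2, fun s₀ hs => ?_⟩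
  obtain ⟨q, hq, rfl⟩ := h3 s₀ hs
  exact ⟨⟨q, hq, rfl⟩, (mix_roots S p β a hp ha q hq).2.2.1⟩

end Pool.Agent.Results.MP_a2a574_ag.MixedDeterminantal
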