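import Pool.Agent.R852.FP.Main

set_option autoImplicit false

/-! # The monodromy conjecture for products of powers of forms over polymatroidal ideals of linear subspaces

Let `L s = zeros (c s)`, `s ∈ S`, be proper linear subspaces of the affine space `ℂ ^ σ`, given as the
zeros of linear forms with the coefficients `c s j`. For `t ∈ T` let `U t` be the set of the bases of a
discrete polymatroid on `S` (a finite non-empty set of vectors `u : S → ℕ` with the exchange property
of Herzog and Hibi), and let

  `J_t = ∑_{u ∈ U t} ∏_s I(L s) ^ u s`,  `F_t = ∑_q y_{t,q} M_{t,q}(x)`,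

where the `M_{t,q}` (`polyGen`) are the products of the linear forms, `u s` of them from the family of
index `s`, for the `u ∈ U t`, which generate the ideal `J_t`, and the `y_{t,q}` are further variables,
separate for each `t` (`blockForm`). Let `f = ∏ t, F_t ^ a t` (`powProd`).

For example, if the `L s` are hyperplanes `ℓ_s = 0` and `U t = {u | u s ≤ 1, ∑ s, u s = k t}`, then `J_t`
is the ideal generated by the `k t`-fold products of the linear forms `ℓ_s` (Tohaneanu and others; if
the `ℓ_s` are generic it is the ideal of a star configuration). The theorem applies to the sets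
`U t = {u | u s ≤ d s, ∑ s, u s = k}`, `0 < d s`, `k < ∑ s, d s`, and to their sums (`IsVeronese`; `d` and
`k` may depend on `t`); so for instance to all forms over the products of powers of the ideals of
`k`-fold products, `k < |S|`, of an arbitrary arrangement of hyperplanes (or of subspaces).

Let `𝒢` be the set of all the flats of the `L s` (proper intersections of some of them, `IsFlat`), and
let `Y` be the (maximal) wonderful model of De Concini and Procesi, which is obtained from the affine
space by blowing up the strict transforms of the flats, in the order of the dimension. It is smooth, the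
components `E_G`, `G ∈ 𝒢`, cross normally, `E_G, E_{G'}, …` have a common point only if `G, G', …` is a
chain, the multiplicity of the Jacobian determinant along `E_G` is `ν_G - 1` with `ν_G = codim G`, and
the ideal of `L s` becomes the ideal of the divisor `∑ E_G`, over the `G ⊆ L s`. So near a point of `Y`
the ideal `J_t` is generated by the monomials `∏_G z_G ^ (∑_{s ∈ A_G} u s)`, `u ∈ U t`, where `G` runs over
a chain and `A_G` is the set of the `s` with `G ⊆ L s` (`above`); as the `A_G` form a chain, there is a
`u ∈ U t` for which all the exponents are minimal (greedy algorithm). Hence `J_t` is locally generated by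
one of the `M_{t,q}`, and has the multiplicity `min_{u ∈ U t} ∑_{s ∈ A_G} u s` along `E_G` (`minOn`);
locally `F_t` is this `M_{t,q}` times `y_{t,q} + ∑_{i ≠ q} g_i y_{t,i}`. Therefore `Y` times the space of
the `y` is an embedded resolution of `f`, with the components `E_G`, of multiplicity
`N_G = ∑ t, a t min_{u ∈ U t} ∑_{s ∈ A_G} u s`, and, for `a t > 0`, the strict transform of `F_t = 0`, with
multiplicity `a t` and `ν = 1` (`mulP`, `nuA`).

The general form of the theorem (1) holds for all sets of exponents and all the `G` which are Rees flats
(`IsReesP`; an equivalent condition is that `E_G` is a Rees divisor of `∏ t, J_t ^ a t`), for instance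
with a smaller building set, if the `J_t` become locally principal. (2) All flats are Rees flats, if the
`U t` are of the kind described above, or if the indices in `A_G` are linked (`IsLinked`): for each
decomposition of `A_G` into two non-empty parts there are `i`, `j` in the different parts such that some
`U t`, `a t ≠ 0`, contains two elements `m + e_i`, `m + e_j` for which the sum over `A_G` is minimal.

The proof: a functional equation of `f` gives a functional equation of `∏ t, J_t ^ a t`, with the same
`b` (`locEq_of_powProd`). At a general point of `E_G`, with the direction `v`, the quotients of the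
generators `M (ℓ_i) / M (ℓ_j)` for linked `i`, `j` give all the linear forms on `L i ∩ L j` which vanish at
`v` (`Good.cov`); if the linked indices connect `A_G` they give a chart of `E_G` (`rees_of_linked`), and a
residue computation there gives the roots (`fp_core`); the roots `-(1 + l) / a t` come from the strict
transforms (`strict_root`). -/

namespace Pool.Agent.Results.MP_a2a574_ag.PolymatroidalForms

open Pool.Agent.W574.HS Pool.Agent.H628R4.TP Pool.Agent.TH192.DT Pool.Agent.TH187.SA
  Pool.Agent.R852.FP

/-- **The monodromy conjecture holds for `f = ∏ t, F_t ^ a t`.** (1) Every pole `s₀` of the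
topological zeta function of `f`, computed on the resolution described above (with arbitrary
integers `χ` in the place of the Euler characteristics of the strata), is a root of every polynomial
`b` with `b(s) f ^ s = P(s) f ^ (s + 1)`, in particular of the Bernstein-Sato polynomial of `f`, if
the `G i` are Rees flats. By
the theorem of Malgrange and Kashiwara, `exp(2 π i s₀)` is a monodromy eigenvalue of `f`. (2) All the
flats of the `L s` are Rees flats, if the sets `U t` of exponents with `a t ≠ 0` are sums of sets of
Veronese type `{u | u s ≤ d s, ∑ s, u s = k}`, `0 < d s`, `k < ∑ s, d s`, or if the indices of the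
subspaces `L s ⊇ G` are linked for each flat `G`. -/
theorem result :
    (∀ {σ S T I : Type} [Fintype σ] [DecidableEq σ] [Fintype S] [DecidableEq S] [Fintype T]
      [DecidableEq T] [Fintype I] {κ : S → Type} [∀ s, Fintype (κ s)] [∀ s, DecidableEq (κ s)]
      (c : (s : S) → κ s → σ → ℂ) (_ : ∀ s, ∃ j, c s j ≠ 0) (U : T → Finset (S → ℕ))
      (_ : ∀ t, (U t).Nonempty) (a : T → ℕ) (G : I → Submodule ℂ (σ → ℂ))
      (_ : ∀ i, IsReesP c U a (G i)) (χ : Finset (I ⊕ T) → ℤ) (s₀ : ℂ)
      (_ : (topZ (nuA G T) (mulP c U a G) χ).denom.eval s₀ = 0)
      (b : Polynomial ℂ) (_ : IsBFunction (powProd a fun t => polyGen c (U t)) b),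
      b.eval s₀ = 0) ∧
    ∀ {σ S T : Type} [Fintype σ] [DecidableEq σ] [Fintype S] [DecidableEq S] [Fintype T]
      [DecidableEq T] {κ : S → Type} [∀ s, Fintype (κ s)] [∀ s, DecidableEq (κ s)]
      (c : (s : S) → κ s → σ → ℂ) (_ : ∀ s, ∃ j, c s j ≠ 0) (U : T → Finset (S → ℕ))
      (_ : ∀ t, (U t).Nonempty) (a : T → ℕ) (G : Submodule ℂ (σ → ℂ)), IsFlat c G →
      (∀ t, a t ≠ 0 → IsVeronese (U t)) ∨ IsLinked U a (above c G) → IsReesP c U a G := by
  refine ⟨?_, ?_⟩
  · intro σ S T I _ _ _ _ _ _ _ κ _ _ c hc U hU a G hG χ s₀ hs₀ b hb
    exact root_of_pole _ _ χ (nu_pos G fun i => (hG i).1) b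
      (fun x l hl => pow_roots c U hU a G hG b
        (powData_global a _ (fun t => polyGen_ne c hc (U t) (hU t)) b hb) x l hl) s₀ hs₀
  · intro σ S T _ _ _ _ _ _ κ _ _ c hc U hU a G hG h
    exact isReesP_flat c hc U hU a G hG h

end Pool.Agent.Results.MP_a2a574_ag.PolymatroidalForms
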