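import Pool.Agent.R852.TP.Fin

/-!
# The weak monodromy conjecture for products of powers of forms over ideals

Let `𝓘` and `𝓗` be the least classes of ideals and of hypersurfaces (`TPw WeakAtP WeakHyp false` and
`TPw WeakAtP WeakHyp true`, together with their global topological zeta functions `Z`) with the
following properties.

* `𝓘` contains the ideals `(x ^ m)`; all non-zero ideals of `ℂ[x, y]`; the ideals of `ℂ[x₀, x₁, x₂]`
  generated by forms of the same degree, three of which are algebraically independent; the ideals
  generated by forms of the same degree without a common zero outside the origin; the ideals whose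
  numerical data come from Rees divisors; the ideals `(f_1, …, f_k)` with very general coefficients at
  the vertices of the Newton polytopes; the products of powers of the ideals of linear subspaces for
  which the wonderful model has only Rees flats; and `(g)` for all polynomials `g`, `g(0) = 0`, which
  are nondegenerate with respect to their Newton polytope.
* `𝓗` contains all plane curves, the polynomials with very general coefficients at the vertices of
  the Newton polytope and arbitrary other terms, and the nondegenerate polynomials `g`, `g(0) = 0`,
  with at most a simple pole at `-1`.
* The principal ideals `(g)` and `(g ^ k)`, `g` in `𝓗`, are in `𝓘`, and `𝓘` is closed under sums and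
  products in disjoint sets of variables.
* If the ideal `h ∏_t (f_{t, j})_j ^ a_t` is in `𝓘`, where `h` and the `f_{t, j}` are any polynomials in
  the same variables `x`, then `h(x) ∏_t (∑_j y_{t, j} f_{t, j}(x)) ^ a_t` is in `𝓗`, with further
  variables `y_{t, j}`.
* `𝓗` contains the Thom-Sebastiani sums `∑ y_j f_j(x) + g(z)` for `(f_j)` in `𝓘` and `g` in `𝓗`, and
  is closed under products in disjoint sets of variables and under dropping variables.

The zeta function of `h(x) ∏_t (∑_j y_{t, j} f_{t, j}(x)) ^ a_t` is `Z(s) ∏_t 1 / (a_t s + 1)`, if `Z` is
the one of the ideal: if `Y` is a log resolution of the ideal, then `Y` times the space of the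
`y_{t, j}` is an embedded resolution of the polynomial.

For the powers we use: if `b` satisfies a functional equation of `g ^ k`, then `b((s - j) / k)`
satisfies one of `g`, for `0 ≤ j < k`. So if `k s₀ - i` is a root of all these polynomials for `g`,
then `s₀ - (i + j) / k` is a root of `b`, where `j < k` is chosen such that `k ∣ i + j`.
-/

set_option autoImplicit false

namespace Pool.Agent.Results.MP_a2a574_ag.PowersOfForms

open MvPolynomial Pool.Agent.W574.SM Pool.Agent.W574.RO Pool.Agent.H628R4.TP Pool.Agent.Y230.TH
  Pool.Agent.R852.TP

/-- **The weak monodromy conjecture for products of powers of forms.** Let `F` be a polynomial with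
`TPw WeakAtP WeakHyp false (F) Z`, that is, `F` is in the class `𝓘` which is described above, and `Z`
is its global topological zeta function. Let `b` satisfy a functional equation
`b(s) F ^ s = P(s) F ^ (s + 1)`, where `P(s)` is a differential operator with polynomial coefficients;
for example, let `b` be the Bernstein-Sato polynomial of `F`. Then for every pole `s₀` of `Z` there is
an `i ∈ ℕ` with `b(s₀ - i) = 0`.

By the theorem of Malgrange and Kashiwara, `exp(2 π i s₀)` is a monodromy eigenvalue of `F` for every
pole `s₀` of the global topological zeta function of `F`. -/
theorem result (σ : Type) (F : MvPolynomial σ ℂ) (Z : RatFunc ℂ)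
    (h : TPw WeakAtP WeakHyp false ⟨σ, Fin 1, fun _ => F⟩ Z) (b : Polynomial ℂ)
    (hb : IsBFunction F b) (s₀ : ℂ) (hs : Z.denom.eval s₀ = 0) :
    ∃ i : ℕ, b.eval (s₀ - i) = 0 :=
  tp_weak F Z h b hb s₀ hs

end Pool.Agent.Results.MP_a2a574_ag.PowersOfForms
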