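import Pool.Agent.R852.SC.Jac
import Pool.Agent.R852.SC.Main

set_option autoImplicit false

/-! # The monodromy conjecture for forms over ideals with smooth zero schemes in the projective space

For `t ∈ T` let `g t j`, `j ∈ κ t`, be forms of the same degree `δ t > 0` in `n = |σ|` variables `x`, not all
zero, let `I_t` be the ideal which they generate, and let

  `F_t = ∑_j y_{t,j} g_{t,j}(x)`,

with further variables `y_{t,j}` (`blockForm`), and `f = ∏ t, F_t ^ a t` (`powProd`).

Let `Z_i`, `i ∈ I`, be pairwise disjoint smooth irreducible closed subvarieties of `ℙ^(n-1)`, of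
codimension `c i`, and assume that, for all `t`, the ideal sheaf on `ℙ^(n-1)` defined by `I_t` is
`∏ i, I(Z_i) ^ m i t`; the numbers `m i t ≥ 0` are arbitrary. So the zero scheme of `I_t` in the
projective space is a disjoint union of thickenings of smooth varieties (for example a reduced smooth
scheme, or a scheme of fat points). Let `p i ≠ 0` be a point of the affine cone over `Z_i`. Then near
`p i` the ideals `I_t` are the powers with the exponents `m i t` of the ideal of a smooth variety of
codimension `c i` (`PowersOfSmooth`). This, at one point for each `i`, is all that the proof uses.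

Blow up the origin of `ℂ ^ n`, and then the strict transforms of the affine cones over the `Z_i`, which
are smooth, pairwise disjoint, and transversal to the exceptional divisor `E_0 = ℙ^(n-1)`. On the smooth
variety `Y` obtained, the ideal `I_t` becomes the ideal of the divisor `δ t E_0 + ∑ i, m i t E_i`, which
has normal crossings; so locally it is generated by one of the `g t j`, and `F_t` is this `g t j` times
`y_{t,j} + ∑_{l ≠ j} h_l y_{t,l}`. Therefore `Y` times the space of the `y` is an embedded resolution of
`f`, with the components `E_0`, with `ν = n` and the multiplicity `N = ∑ t, a t * δ t`; `E_i`, with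
`ν = c i` and `N = ∑ t, a t * m i t`; and the strict transforms of `F_t = 0`, with `ν = 1` and
`N = a t` (`nuC`, `mulC`).

The theorem needs another assumption: (J) for some `t` with `a t ≠ 0` there are `n` algebraically
independent forms among the `g t j` (their Jacobian determinant is not zero); that is, the rational map
from `ℙ^(n-1)` given by the `g t j` is generically finite onto its image. By part (2) of the theorem it
holds if the linear span of the `g t j` contains the products `x_s q`, `s ∈ σ`, of the variables and some
form `q ≠ 0`.

Examples: (a) Let `Z_i` be arbitrary (pairwise disjoint, smooth) and `m i ≥ 0`. For all sufficiently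
large `δ`, the forms of degree `δ` in `∏ i, I(Z_i) ^ m i` generate this ideal sheaf, and their span
contains all the `x_s q` for some `q ≠ 0`; so the theorem applies to the complete linear systems of the
forms of large degree with the multiplicities `m i` along the `Z_i`, and to all products of powers of
such systems for the same `Z_i`. (b) One `Z`, and forms of the smallest degree: the quadrics in the
homogeneous ideals of the Segre varieties `ℙ^r × ℙ^s`, `r, s ≥ 2`, of the quadratic Veronese varieties of
`ℙ^r`, `r ≥ 2`, of the Grassmannians `G(2, r)`, `r ≥ 6`, and of the elliptic normal curves of degree `5`.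

The proof: a functional equation of `f` gives a functional equation of `∏ t, I_t ^ a t`, with the same
`b`; the quotients of the generators give, by (J), a chart of `E_0`
(`cone_chart`), and, as the powers of the ideal of a smooth variety have the same blow-up as the ideal,
a chart of `E_i` (`smooth_chart`; the formal inverse function theorem `exists_inverse` is used here). A
residue computation in these charts gives the roots (`rees_prod`); the roots `-1 / a t` come from the
strict transforms. -/

namespace Pool.Agent.Results.MP_a2a574_ag.SmoothCones

open MvPolynomial Pool.Agent.W574.SM Pool.Agent.W574.LM Pool.Agent.W574.HS Pool.Agent.H628R4.TP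
  Pool.Agent.TH192.DT Pool.Agent.TH187.SA Pool.Agent.Y231.RF Pool.Agent.R852.SC

/-- **The monodromy conjecture holds for `f = ∏ t, F_t ^ a t`.** (1) Every pole `s₀` of the topological
zeta function of `f`, computed on the resolution described above (with arbitrary integers `χ` in the
place of the Euler characteristics of the strata), is a root of every polynomial `b` with
`b(s) f ^ s = P(s) f ^ (s + 1)`, in particular of the Bernstein-Sato polynomial of `f`. By the theorem of
Malgrange and Kashiwara, `exp(2 π i s₀)` is a monodromy eigenvalue of `f`.
(2) The condition (J) holds if the span of the `g t j`, for some `t` with `a t ≠ 0`, contains the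
products of all the variables and some form `q ≠ 0`. -/
theorem result :
    (∀ {σ T I : Type} [Fintype σ] [DecidableEq σ] [Fintype T] [DecidableEq T] [Fintype I]
      {κ : T → Type} [∀ t, Fintype (κ t)] [∀ t, DecidableEq (κ t)]
      (g : (t : T) → κ t → MvPolynomial σ ℂ) (δ : T → ℕ) (_ : ∀ t, 0 < δ t)
      (_ : ∀ t j, (g t j).IsHomogeneous (δ t)) (_ : ∀ t, ∃ j, g t j ≠ 0) (a : T → ℕ)
      (_ : ∃ t, a t ≠ 0 ∧ ∃ e : σ → κ t, (Matrix.of fun i s => pderiv i (g t (e s))).det ≠ 0)
      (c : I → ℕ) (m : I → T → ℕ) (p : I → σ → ℂ)
      (_ : ∀ i, PowersOfSmooth g (c i) (m i) (p i)) (χ : Finset (Option I ⊕ T) → ℤ) (s₀ : ℂ)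
      (_ : (topZ (nuC (Fintype.card σ) c T) (mulC δ m a) χ).denom.eval s₀ = 0)
      (b : Polynomial ℂ) (_ : IsBFunction (powProd a g) b), b.eval s₀ = 0) ∧
    ∀ {σ κ : Type} [Fintype σ] [DecidableEq σ] (g : κ → MvPolynomial σ ℂ) (q : MvPolynomial σ ℂ)
      (d : ℕ), q.IsHomogeneous d → q ≠ 0 → (∀ s, X s * q ∈ Submodule.span ℂ (Set.range g)) →
      ∃ e : σ → κ, (Matrix.of fun i s => pderiv i (g (e s))).det ≠ 0 := by
  refine ⟨?_, ?_⟩
  · intro σ T I _ _ _ _ _ κ _ _ g δ hδ hg hg0 a hJ c m p hp χ s₀ hs₀ b hb
    exact top_main g δ hδ hg hg0 a hJ c m p hp χ s₀ hs₀ b (powData_global a g hg0 b hb)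
  · intro σ κ _ _ g q d hq h0 h
    exact jac_of_mul g q d hq h0 h

end Pool.Agent.Results.MP_a2a574_ag.SmoothCones
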